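import Mathlib
import Pool.Agent.Lib.MP_8bb6bd_co.Data
import Pool.Agent.Lib.MP_8bb6bd_co.Large

/-!
# For `n ≥ 17` the `n`-ominoes do not form a repeating unit

For `n ≥ 17` the union of a patch made of a basic, reflective or full set of `n`-ominoes does not
tile the plane by congruent copies; so there is neither an isohedral nor a translative repeating
unit. For `17 ≤ n ≤ 34` there are more `n`-ominoes with a certain pocket than `n`-ominoes which can
fill it, for `n ≥ 35` some `n`-omino has a cavity which cannot be filled at all.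
-/

namespace Pool.Agent.Results.MP_8bb6bd_co.NoUnitFromSeventeen

open Omino in
theorem result : ∀ n : ℕ, 17 ≤ n → ∀ M : Set (ℂ ≃ᵢ ℂ),
    (M = Set.univ ∨ M = {φ | ∃ a b : ℂ, ∀ z, φ z = a * z + b} ∨
      M = {φ | ∃ b : ℂ, ∀ z, φ z = z + b}) →
    ∀ 𝒜 : Set (Set ℂ), IsPatch M n 𝒜 → ¬ TilesPlane (⋃₀ 𝒜) := by
  intro n hn M hM 𝒜 hA
  obtain ⟨k, rfl⟩ : ∃ k : SetKind, M = motions k := by
    rcases hM with rfl | rfl | rfl
    · exact ⟨SetKind.basic, rfl⟩
    · exact ⟨SetKind.reflective, rfl⟩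
    · exact ⟨SetKind.full, rfl⟩
  by_cases h35 : 35 ≤ n
  · exact case_large h35 k 𝒜 hA
  · have h34 : n ≤ 34 := by omega
    interval_cases n
    · exact case17 k 𝒜 hA
    · exact case18 k 𝒜 hA
    · exact case19 k 𝒜 hA
    · exact case20 k 𝒜 hA
    · exact case21 k 𝒜 hA
    · exact case22 k 𝒜 hA
    · exact case23 k 𝒜 hA
    · exact case24 k 𝒜 hA
    · exact case25 k 𝒜 hA
    · exact case26 k 𝒜 hA
    · exact case27 k 𝒜 hA
    · exact case28 k 𝒜 hA
    · exact case29 k 𝒜 hA
    · exact case30 k 𝒜 hA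
    · exact case31 k 𝒜 hA
    · exact case32 k 𝒜 hA
    · exact case33 k 𝒜 hA
    · exact case34 k 𝒜 hA

end Pool.Agent.Results.MP_8bb6bd_co.NoUnitFromSeventeen
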